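import Mathlib

namespace Pool.Agent.H.MP_15d263_co

open Set Metric

abbrev E := EuclideanSpace ℝ (Fin 2)

/-- A countable family of closed sets that covers the plane, with pairwise disjoint interiors. -/
def Tiling (T : Set (Set E)) : Prop :=
  T.Countable ∧ (∀ A ∈ T, IsClosed A) ∧ ⋃₀ T = univ ∧
    T.Pairwise fun A B => Disjoint (interior A) (interior B)

/-- The isometry `f` maps the family `T` onto itself. -/
def Sym (T : Set (Set E)) (f : E ≃ᵢ E) : Prop := (fun C => f '' C) '' T = T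

/-- The closed unit square centred at `c`. -/
def sq (c : E) : Set E := {p | ∀ k, p k ∈ Icc (c k - 1 / 2) (c k + 1 / 2)}

def pt (x y : ℤ) : E := !₂[x, y]

/-- An isohedral tiling by copies of `T(x,y)` in which every tile is mapped onto itself by a
symmetry of the tiling that exchanges its two squares. -/
def Idiomeric (x y : ℤ) (T : Set (Set E)) : Prop :=
  Tiling T ∧ (∀ A ∈ T, ∀ B ∈ T, ∃ f, Sym T f ∧ f '' A = B) ∧
    ∀ A ∈ T, ∃ g : E ≃ᵢ E, A = g '' (sq 0 ∪ sq (pt x y)) ∧ ∃ f, Sym T f ∧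
      f '' (g '' sq 0) = g '' sq (pt x y) ∧ f '' (g '' sq (pt x y)) = g '' sq 0

/-- Every tile is a union of squares of the regular tiling centred at the integer points. -/
def OnGrid (T : Set (Set E)) : Prop := ∀ A ∈ T, ∃ S : Set (ℤ × ℤ), A = ⋃ u ∈ S, sq (pt u.1 u.2)

theorem sq_add (a c : E) : (a + ·) '' sq c = sq (a + c) := by
  ext p
  simp only [image_add_left, mem_preimage, sq, mem_ofPred_eq, mem_Icc, PiLp.add_apply, PiLp.neg_apply]
  exact forall_congr' fun k => by constructor <;> rintro ⟨a, b⟩ <;> constructor <;> linarith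

theorem sq_sub (a c : E) : (a - ·) '' sq c = sq (a - c) := by
  ext p
  refine ⟨?_, fun h => ⟨a - p, fun k => ?_, by simp⟩⟩
  · rintro ⟨q, h, rfl⟩ k
    have := h k
    simp only [mem_Icc, PiLp.sub_apply] at *
    constructor <;> linarith
  · have := h k
    simp only [mem_Icc, PiLp.sub_apply] at *
    constructor <;> linarith

theorem sq_closed (c : E) : IsClosed (sq c) := by
  simp only [sq, ofPred_forall]
  exact isClosed_iInter fun k => isClosed_Icc.preimage (by fun_prop)

theorem sq_int {c p : E} (h : p ∈ interior (sq c)) (k : Fin 2) :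
    p k ∈ Ioo (c k - 1 / 2) (c k + 1 / 2) := by
  have := (EuclideanSpace.proj (𝕜 := ℝ) k : E →L[ℝ] ℝ).isOpenMap fun t =>
    ⟨EuclideanSpace.single k t, by simp⟩
  rw [← interior_Icc]
  exact interior_mono (by rintro _ ⟨q, hq, rfl⟩; exact hq k) (this.image_interior_subset _ ⟨p, h, rfl⟩)

def P (i : Fin 2) (β : ℝ) (u : ℤ × ℤ) : E :=
  WithLp.toLp 2 fun k => if k = i then u.1 else u.1 * β + u.2

theorem P_add (i : Fin 2) (β : ℝ) (u v : ℤ × ℤ) : P i β (u + v) = P i β u + P i β v := by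
  ext k
  simp only [P, Prod.fst_add, Prod.snd_add, PiLp.add_apply]
  split_ifs <;> push_cast <;> ring

theorem cover (i : Fin 2) (β : ℝ) (p : E) : ∃ u, p ∈ sq (P i β u) := by
  refine ⟨(⌊p i + 1 / 2⌋, ⌊p (i + 1) + 1 / 2 - ⌊p i + 1 / 2⌋ * β⌋), fun k => ?_⟩
  have := Int.floor_le (p (i + 1) + 1 / 2 - ⌊p i + 1 / 2⌋ * β)
  have := Int.lt_floor_add_one (p (i + 1) + 1 / 2 - ⌊p i + 1 / 2⌋ * β)
  have := Int.floor_le (p i + 1 / 2)
  have := Int.lt_floor_add_one (p i + 1 / 2)
  simp only [P]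
  split_ifs with h
  · subst h
    constructor <;> linarith
  · rw [show k = i + 1 by omega]
    constructor <;> linarith

theorem uniq {i : Fin 2} {β : ℝ} {u v : ℤ × ℤ} {p : E} (h : p ∈ interior (sq (P i β u)))
    (h' : p ∈ interior (sq (P i β v))) : u = v := by
  have key : ∀ (a b : ℤ) (s t : ℝ), t ∈ Ioo (s + a - 1 / 2) (s + a + 1 / 2) →
      t ∈ Ioo (s + b - 1 / 2) (s + b + 1 / 2) → a = b := fun a b s t x y => by
    have h1 : (a : ℝ) < b + 1 := by linarith [x.1, y.2]
    have h2 : (b : ℝ) < a + 1 := by linarith [y.1, x.2]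
    norm_cast at h1 h2
    omega
  have e := key u.1 v.1 0 _ (by simpa [P] using sq_int h i) (by simpa [P] using sq_int h' i)
  have ne : i + 1 ≠ i := by omega
  exact Prod.ext e (key u.2 v.2 (v.1 * β) _ (by simpa [P, ne, e] using sq_int h (i + 1))
    (by simpa [P, ne] using sq_int h' (i + 1)))

theorem int_union {A B : Set E} (hA : IsClosed A) (hB : IsClosed B) (h : Disjoint A B) {p : E}
    (hp : p ∈ interior (A ∪ B)) : p ∈ interior A ∨ p ∈ interior B := by
  refine (interior_subset hp).imp (fun a => ?_) fun b => ?_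
  · refine interior_mono (s := (A ∪ B) ∩ Bᶜ) (by rintro q ⟨x | x, y⟩; exacts [x, absurd x y]) ?_
    rw [interior_inter, hB.isOpen_compl.interior_eq]
    exact ⟨hp, disjoint_left.mp h a⟩
  · refine interior_mono (s := (A ∪ B) ∩ Aᶜ) (by rintro q ⟨x | x, y⟩; exacts [absurd x y, x]) ?_
    rw [interior_inter, hA.isOpen_compl.interior_eq]
    exact ⟨hp, disjoint_right.mp h b⟩

theorem far {x y : ℤ} (h : 2 ≤ max |x| |y|) : ∃ k, 2 ≤ |pt x y k| := by
  rcases le_max_iff.mp h with h | h
  · exact ⟨0, show (2 : ℝ) ≤ |(x : ℝ)| by exact_mod_cast h⟩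
  · exact ⟨1, show (2 : ℝ) ≤ |(y : ℝ)| by exact_mod_cast h⟩

theorem pair (i : Fin 2) (β : ℝ) (a n x y : ℤ) (h : 2 ≤ max |x| |y|)
    (e0 : pt x y = P i β (a, 2 * n + 1)) :
    Idiomeric x y (range fun u : ℤ × ℤ =>
      sq (P i β (u.1, 2 * u.2)) ∪ sq (P i β (u.1 + a, 2 * u.2 + (2 * n + 1)))) := by
  set S := fun u : ℤ × ℤ => sq (P i β (u.1, 2 * u.2)) ∪ sq (P i β (u.1 + a, 2 * u.2 + (2 * n + 1)))
  set φ := fun u : ℤ × ℤ => P i β (u.1, 2 * u.2)
  have hφ : ∀ u v, φ (u + v) = φ u + φ v := fun u v => by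
    simp only [φ]
    rw [← P_add]
    simp [mul_add]
  have e : ∀ u, S u = sq (φ u) ∪ sq (φ u + pt x y) := fun u => by
    rw [e0, ← P_add]
    rfl
  have key : ∀ u v, IsometryEquiv.addLeft (φ u) '' S v = S (u + v) := fun u v => by
    simp only [e, image_union, hφ, IsometryEquiv.addLeft_apply, sq_add, add_assoc]
  have d : ∀ u, Disjoint (sq (φ u)) (sq (φ u + pt x y)) := fun u => disjoint_left.mpr fun p a b => by
    obtain ⟨k, hk⟩ := far h
    have := a k
    have := b k
    simp only [mem_Icc, PiLp.add_apply] at *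
    rcases le_abs.mp hk with h | h <;> linarith
  refine ⟨⟨countable_range _, ?_, eq_univ_of_forall fun p => ?_, ?_⟩, ?_, ?_⟩
  · rintro _ ⟨u, rfl⟩
    exact (sq_closed _).union (sq_closed _)
  · obtain ⟨⟨c, b⟩, hp⟩ := cover i β p
    rcases Int.even_or_odd' b with ⟨k, rfl | rfl⟩
    · exact ⟨_, ⟨(c, k), rfl⟩, Or.inl hp⟩
    · exact ⟨_, ⟨(c - a, k - n), rfl⟩, Or.inr (by convert hp using 4 <;> ring)⟩
  · rintro _ ⟨u, rfl⟩ _ ⟨v, rfl⟩ ne
    refine disjoint_left.mpr fun p b c => ne (congrArg S ?_)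
    have d' : ∀ u : ℤ × ℤ, Disjoint (sq (P i β (u.1, 2 * u.2)))
        (sq (P i β (u.1 + a, 2 * u.2 + (2 * n + 1)))) := fun u => by
      have := d u
      rwa [e0, ← P_add] at this
    rcases int_union (sq_closed _) (sq_closed _) (d' u) b with b | b <;>
      rcases int_union (sq_closed _) (sq_closed _) (d' v) c with c | c <;>
      have := Prod.mk.inj (uniq b c) <;> exact Prod.ext (by omega) (by omega)
  · rintro _ ⟨u, rfl⟩ _ ⟨v, rfl⟩
    refine ⟨IsometryEquiv.addLeft (φ (v - u)), ?_, by rw [key, sub_add_cancel]⟩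
    rw [Sym, ← range_comp]
    exact (congrArg range (funext fun w => key _ w)).trans
      ((Equiv.addLeft (v - u)).surjective.range_comp S)
  · rintro _ ⟨u, rfl⟩
    refine ⟨IsometryEquiv.addLeft (φ u), ?_, IsometryEquiv.subLeft (φ u + φ u + pt x y), ?_, ?_, ?_⟩
    · simp only [e, image_union, IsometryEquiv.addLeft_apply, sq_add, add_zero]
    · rw [Sym, ← range_comp]
      refine (congrArg range (funext fun w => ?_)).trans
        ((Equiv.subLeft (u + u)).surjective.range_comp S)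
      have : φ (u + u - w) = φ u + φ u - φ w := by rw [← hφ, eq_sub_iff_add_eq, ← hφ, sub_add_cancel]
      simp only [Function.comp, e, image_union, IsometryEquiv.subLeft_apply, sq_sub,
        Equiv.subLeft_apply, this]
      rw [union_comm]
      congr 2 <;> abel
    · simp only [IsometryEquiv.addLeft_apply, IsometryEquiv.subLeft_apply, sq_add, sq_sub]
      congr 1
      abel
    · simp only [IsometryEquiv.addLeft_apply, IsometryEquiv.subLeft_apply, sq_add, sq_sub]
      congr 1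
      abel

def I (A : Set E) : Set E := {p | closedBall p (1 / 2) ⊆ A}

theorem I_image (f : E ≃ᵢ E) (A : Set E) {p : E} (h : p ∈ I A) : f p ∈ I (f '' A) := by
  rw [I, mem_ofPred_eq, ← f.image_closedBall]
  exact image_mono h

theorem I_sq (c : E) : c ∈ I (sq c) := fun p h k => by
  have := (PiLp.dist_apply_le p c k).trans h
  rw [Real.dist_eq, abs_le] at this
  constructor <;> linarith

theorem ends {p : E} {A : Set E} (h : p ∈ I A) (k : Fin 2) :
    p + EuclideanSpace.single k (1 / 2) ∈ A ∧ p - EuclideanSpace.single k (1 / 2) ∈ A :=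
  ⟨h (by simp), h (by simp)⟩

theorem sq_I {p c : E} (h : p ∈ I (sq c)) : p = c := by
  ext k
  have a := (ends h k).1 k
  have b := (ends h k).2 k
  simp at a b
  linarith

theorem T_I {x y : ℤ} (h : 2 ≤ max |x| |y|) {p : E} (hp : p ∈ I (sq 0 ∪ sq (pt x y))) :
    p = 0 ∨ p = pt x y := by
  obtain ⟨k, hk⟩ := far h
  have key : ∀ q ∈ closedBall p (1 / 2), ∀ r ∈ closedBall p (1 / 2), q ∈ sq 0 → r ∈ sq (pt x y) →
      q k - r k = 1 ∨ q k - r k = -1 := fun q a r b c d => by
    have := (PiLp.dist_apply_le q p k).trans a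
    have := (PiLp.dist_apply_le r p k).trans b
    have := c k
    have := d k
    simp only [Real.dist_eq, abs_le, mem_Icc, PiLp.zero_apply] at *
    rcases le_abs.mp hk with h | h
    · right; linarith
    · left; linarith
  have k2 : ∀ q ∈ closedBall p (1 / 2), q k - p k ≠ 1 ∧ q k - p k ≠ -1 := fun q a => by
    have := (PiLp.dist_apply_le q p k).trans a
    simp only [Real.dist_eq, abs_le] at *
    constructor <;> intro _ <;> linarith
  have m := mem_closedBall_self (x := p) (ε := 1 / 2) (by norm_num)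
  refine (hp m).imp (fun a => sq_I fun q b => (hp b).resolve_right fun c => ?_)
    fun a => sq_I fun q b => (hp b).resolve_left fun c => ?_
  · rcases key p m q b a c with e | e
    · exact (k2 q b).2 (by linarith)
    · exact (k2 q b).1 (by linarith)
  · rcases key q b p m c a with e | e
    · exact (k2 q b).1 e
    · exact (k2 q b).2 e

theorem alg {a b c d s t : ℝ} (h1 : ¬(a = 0 ∧ b = 0)) (h2 : ¬(c = 0 ∧ d = 0))
    (o : a * c + b * d = 0) (d1 : s * a + t * b = 0) (d2 : s * c + t * d = 0) : s = 0 ∧ t = 0 := by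
  have h3 : a * d - b * c ≠ 0 := fun z => by
    have : (a ^ 2 + b ^ 2) * (c ^ 2 + d ^ 2) = 0 := by
      linear_combination (a * d - b * c) * z + (a * c + b * d) * o
    rcases mul_eq_zero.mp this with q | q
    · exact h1 ⟨by nlinarith, by nlinarith⟩
    · exact h2 ⟨by nlinarith, by nlinarith⟩
  exact ⟨(mul_eq_zero.mp (by linear_combination d * d1 - b * d2)).resolve_right h3,
    (mul_eq_zero.mp (by linear_combination a * d2 - c * d1)).resolve_right h3⟩

theorem dsq (p q : E) : dist p q ^ 2 = (p 0 - q 0) ^ 2 + (p 1 - q 1) ^ 2 := by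
  rw [EuclideanSpace.dist_eq, Real.sq_sqrt (by positivity)]
  simp [Real.dist_eq]

theorem fix3 (f : E ≃ᵢ E) {u v w : E} (h : u ≠ v) (hw : w ≠ midpoint ℝ u v)
    (e : dist w u = dist w v) (a : f u = u) (b : f v = v) (c : f w = w) (p : E) : f p = p := by
  have a' := congrArg (· ^ 2) (f.dist_eq p u)
  have b' := congrArg (· ^ 2) (f.dist_eq p v)
  have c' := congrArg (· ^ 2) (f.dist_eq p w)
  have e' := congrArg (· ^ 2) e
  simp only [a, b, c, dsq] at a' b' c' e'
  have := alg (a := u 0 - v 0) (b := u 1 - v 1) (c := 2 * w 0 - u 0 - v 0)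
    (d := 2 * w 1 - u 1 - v 1) (s := f p 0 - p 0) (t := f p 1 - p 1)
    (fun z => h (by ext k; fin_cases k; exacts [sub_eq_zero.mp z.1, sub_eq_zero.mp z.2]))
    (fun z => hw (by ext k; fin_cases k <;> simp [midpoint_eq_smul_add] <;> linarith [z.1, z.2]))
    (by linarith) (by linarith) (by linarith)
  ext k
  fin_cases k
  exacts [sub_eq_zero.mp this.1, sub_eq_zero.mp this.2]

theorem int_sq {u v : ℤ × ℤ} (h : pt u.1 u.2 ∈ sq (pt v.1 v.2)) : pt u.1 u.2 = pt v.1 v.2 := by
  have key : ∀ a b : ℤ, (a : ℝ) ∈ Icc ((b : ℝ) - 1 / 2) (b + 1 / 2) → a = b := fun a b x => by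
    have h1 : (a : ℝ) < b + 1 := by linarith [x.2]
    have h2 : (b : ℝ) < a + 1 := by linarith [x.1]
    norm_cast at h1 h2
    omega
  rw [key _ _ (h 0), key _ _ (h 1)]

theorem no {x y : ℤ} (h : 2 ≤ max |x| |y|) (hx : Even x) (hy : Even y) {T : Set (Set E)}
    (hT : Idiomeric x y T) (hG : OnGrid T) : False := by
  obtain ⟨⟨-, -, hc, hd⟩, iso, sw⟩ := hT
  have far' : 2 ≤ dist (0 : E) (pt x y) := by
    obtain ⟨k, hk⟩ := far h
    have := PiLp.dist_apply_le 0 (pt x y) k
    rw [Real.dist_eq] at this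
    simpa using hk.trans (by simpa using this)
  have two : ∀ A ∈ T, ∃ a b, a ≠ b ∧ ∀ p, p ∈ I A ↔ p = a ∨ p = b := fun A hA => by
    obtain ⟨g, rfl, -⟩ := sw A hA
    refine ⟨g 0, g (pt x y), fun e => ?_, fun p => ⟨fun q => ?_, ?_⟩⟩
    · rw [← g.injective e, dist_self] at far'
      linarith
    · have := I_image g.symm _ q
      simp only [image_image, g.symm_apply_apply, image_id'] at this
      exact (T_I h this).imp (fun e => by rw [← e]; simp) fun e => by rw [← e]; simp
    · rintro (rfl | rfl)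
      · exact I_image g _ ((I_sq _).trans subset_union_left)
      · exact I_image g _ ((I_sq _).trans subset_union_right)
  have other : ∀ A ∈ T, ∀ {a b c}, a ∈ I A → b ∈ I A → c ∈ I A → a ≠ b → c = a ∨ c = b :=
    fun A hA a b c ha hb hc ne => by
      obtain ⟨s, t, -, e⟩ := two A hA
      rw [e] at ha hb hc
      grind
  obtain ⟨A, hA, -⟩ := mem_sUnion.mp (hc ▸ mem_univ (0 : E))
  obtain ⟨g, rfl, f, sf, f1, f2⟩ := sw A hA
  have u1 : g 0 ∈ I (g '' (sq 0 ∪ sq (pt x y))) := I_image g _ ((I_sq _).trans subset_union_left)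
  have v1 : g (pt x y) ∈ I (g '' (sq 0 ∪ sq (pt x y))) :=
    I_image g _ ((I_sq _).trans subset_union_right)
  have duv := g.dist_eq 0 (pt x y)
  have fc : ∀ a b, f '' (g '' sq a) = g '' sq b → f (g a) = g b := fun a b e => by
    have := I_image g.symm _ (e ▸ I_image f _ (I_image g _ (I_sq a)))
    simp only [image_image, g.symm_apply_apply, image_id'] at this
    rw [← sq_I this]
    simp
  have fu := fc _ _ f1
  have fv := fc _ _ f2
  generalize g 0 = u, g (pt x y) = v, g '' (sq 0 ∪ sq (pt x y)) = A at *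
  have uv : u ≠ v := fun e => by
    rw [e, dist_self] at duv
    linarith
  have grid : ∀ B ∈ T, ∀ p ∈ B, ∃ s : ℤ × ℤ, p ∈ sq (pt s.1 s.2) ∧ pt s.1 s.2 ∈ I B :=
    fun B hB p hp => by
      obtain ⟨S, rfl⟩ := hG B hB
      obtain ⟨s, hs, q⟩ := mem_iUnion₂.mp hp
      exact ⟨s, q, (I_sq _).trans (subset_biUnion_of_mem (u := fun u : ℤ × ℤ => sq (pt u.1 u.2)) hs)⟩
  have near : ∀ p c, p ∈ sq c → dist p c < 2 := fun p c q => by
    have := dsq p c
    have := q 0
    have := q 1
    simp only [mem_Icc] at *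
    refine lt_of_pow_lt_pow_left₀ 2 (by norm_num) ?_
    nlinarith
  obtain ⟨s, rfl⟩ : ∃ s : ℤ × ℤ, u = pt s.1 s.2 := by
    obtain ⟨s, a, b⟩ := grid A hA u (u1 (by simp))
    refine ⟨s, ((other A hA u1 v1 b uv).resolve_right fun e => ?_).symm⟩
    have := near _ _ a
    rw [e] at this
    linarith
  obtain ⟨t, rfl⟩ : ∃ s : ℤ × ℤ, v = pt s.1 s.2 := by
    obtain ⟨t, a, b⟩ := grid A hA v (v1 (by simp))
    refine ⟨t, ((other A hA u1 v1 b uv).resolve_left fun e => ?_).symm⟩
    have := near _ _ a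
    rw [e, dist_comm] at this
    linarith
  obtain ⟨m, hm⟩ : ∃ m : ℤ × ℤ, midpoint ℝ (pt s.1 s.2) (pt t.1 t.2) = pt m.1 m.2 := by
    have := congrArg (· ^ 2) duv
    simp only [dsq, pt] at this
    simp only [Matrix.cons_val_zero, Matrix.cons_val_one, PiLp.zero_apply] at this
    norm_cast at this
    obtain ⟨a, rfl⟩ := hx
    obtain ⟨b, rfl⟩ := hy
    rcases Int.even_or_odd' (s.1 - t.1) with ⟨c, hc | hc⟩ <;>
      rcases Int.even_or_odd' (s.2 - t.2) with ⟨d, hd | hd⟩ <;> rw [hc, hd] at this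
    · refine ⟨(t.1 + c, t.2 + d), ?_⟩
      have hc' : (s.1 : ℝ) = t.1 + 2 * c := by exact_mod_cast (by omega)
      have hd' : (s.2 : ℝ) = t.2 + 2 * d := by exact_mod_cast (by omega)
      ext k
      fin_cases k <;> simp [midpoint_eq_smul_add, pt, hc', hd'] <;> ring
    all_goals
      ring_nf at this
      omega
  generalize pt s.1 s.2 = u, pt t.1 t.2 = v at *
  obtain ⟨B, hB, mB⟩ := mem_sUnion.mp (hc ▸ mem_univ (pt m.1 m.2))
  have mI : pt m.1 m.2 ∈ I B := by
    obtain ⟨r, a, b⟩ := grid B hB _ mB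
    rwa [int_sq a]
  rw [← hm] at mI
  obtain ⟨w, wI, wm⟩ : ∃ w ∈ I B, w ≠ midpoint ℝ u v := by
    obtain ⟨a, b, ne, e⟩ := two B hB
    by_cases q : a = midpoint ℝ u v
    · exact ⟨b, (e b).mpr (Or.inr rfl), fun z => ne (q.trans z.symm)⟩
    · exact ⟨a, (e a).mpr (Or.inl rfl), q⟩
  have fixw : ∀ ψ, Sym T ψ → ψ (midpoint ℝ u v) = midpoint ℝ u v → ψ w = w := fun ψ sψ e => by
    have i1 : ∀ C, midpoint ℝ u v ∈ I C → midpoint ℝ u v ∈ interior C := fun C q =>
      mem_interior_iff_mem_nhds.mpr (Filter.mem_of_superset (closedBall_mem_nhds _ (by norm_num)) q)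
    have : ψ '' B = B := by
      by_contra ne
      exact disjoint_left.mp (hd (sψ ▸ mem_image_of_mem _ hB) hB ne) (i1 _ (e ▸ I_image ψ _ mI)) (i1 _ mI)
    exact (other B hB mI wI (this ▸ I_image ψ _ wI) wm.symm).resolve_left
      fun z => wm (ψ.injective (z.trans e.symm))
  have fm : f (midpoint ℝ u v) = midpoint ℝ u v := by rw [f.map_midpoint, fu, fv, midpoint_comm]
  have fw := fixw f sf fm
  obtain ⟨k, sk, kB⟩ := iso B hB A hA
  have s' : Sym T (k.symm.trans (f.trans k)) := by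
    have tr : ∀ f g, Sym T f → Sym T g → Sym T (f.trans g) := fun f g a b => by
      have := congrArg (fun T => (fun C => g '' C) '' T) a
      simp only [image_image] at this
      exact this.trans b
    refine tr _ _ ?_ (tr _ _ sf sk)
    have := congrArg (fun T => (fun C => k.symm '' C) '' T) sk
    simp only [image_image, k.symm_apply_apply, image_id'] at this
    exact this.symm
  have km := kB ▸ I_image k _ mI
  have kw := kB ▸ I_image k _ wI
  have fx : ∀ p ∈ I A, (k.symm.trans (f.trans k)) p = p := fun p hp => by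
    rcases other A hA km kw hp (k.injective.ne wm.symm) with rfl | rfl <;> simp [fm, fw]
  have := fix3 _ uv wm (by rw [← f.dist_eq, fw, fu]) (fx u u1) (fx v v1)
    (fixw _ s' (by rw [IsometryEquiv.map_midpoint, fx u u1, fx v v1])) (k u)
  simp only [IsometryEquiv.trans_apply, k.symm_apply_apply, fu] at this
  exact uv (k.injective this).symm

end Pool.Agent.H.MP_15d263_co
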